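import Pool.Agent.N876.RK1.Proof

/-!
# Higher Chow groups of products with cyclic coverings branched along hyperplanes: the ranks

Let `κ` be a finite field with `q = c ^ f` elements, and `𝒱` a class of smooth projective varieties over
`κ`, closed under products, with Chow groups `A` with rational coefficients and a Weil cohomology theory
`H` (framework of helper492 and helper484: `TheoryData`, `IsChow`, `IsWeil`). Let `X_i` be varieties in
`𝒱`, of any dimensions `n_i`, which are models of cyclic coverings

  `w ^ N_i = ∏ l_{i,k} (x) ^ a_{i,k}`

of projective spaces, branched along hyperplanes `l_{i,k} = 0` over `κ`, with exponents prime to `N_i`,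
where `N_i` divides `q - 1` (`IsModel`, see the definitions: the cohomology is generated by the
classes of cycles and a part `T`, pure of weight `n_i`, without invariants under the covering
group, for which the trace formula holds). Let `N` be a common multiple of the `N_i`, and `λ` an
integer such that `IsSmall N λ` holds: for every nonempty finite set `I` of indices and all `j_i` not
divisible by `N_i` (`i ∈ I`) there is a `u` prime to `N` with
`∑_{i ∈ I} weight X_i (u j_i) + λ / 2 < ∑_{i ∈ I} (n_i / 2 + 1)`; here `weight X j` is the mean over the
orbit `j, c j, …, c ^ (f - 1) j` of the sum of the fractional parts of `j a_k / N_i`.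

Let `U` be **any** scheme of finite type over `κ`, of dimension `e` (it can be singular and not proper), and
`Z` a variety in `𝒱` (for example a point). Fix an integer `i ≥ 0`. For `X` in `𝒱` and integers `n` let
`T^n(X) = CH^n(X × U, i) ⊗ ℚ` (cycles of dimension `dim X + e - n + i`), and `φ` the Frobenius endomorphism of
`U` on `T`; the rank of `CH^n(X × U, i)` is the dimension of `T^n(X)`. Correspondences between smooth
projective varieties operate on these groups, and the product of `φ` and the Frobenius endomorphism of `X` is
`q ^ n` on `T^n(X)` (`IsRelative`). Let `χ` be a polynomial with rational coefficients which is satisfied by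
`φ`. We assume that the products `b` of the eigenvalues of the Frobenius on `H(Z)` and the complex roots of
`χ` are algebraic with `|b| ^ 2 = q ^ j` (theorem of Deligne) and that
* either `λ = 0` and the cyclotomic polynomial of order `N` is irreducible over the field generated by
  the numbers `b` (for given `Z` and `U` this is true for all `N` prime to the discriminant of this field),
* or `Z × U` is of level `≤ λ`: the numbers `q ^ λ b / b̄` are algebraic integers. This is true if
  `dim Z + dim U ≤ λ`.
Finally the homologically trivial self-correspondences of degree zero of the products `V` of `Z` and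
different `X_i` are assumed to be nilpotent (nothing of this kind is assumed for `U`); this holds if `Z` is
a point (or dominated by a product of curves) and the `X_i` are curves or have `n_i + 2` branch
hyperplanes in general position, by the theorem of Kimura and O'Sullivan.

**Theorem.** Let `V` be the product of `Z` and of finitely many of the `X_i` (pairwise different), and
`d = dim V - dim Z`. There are finitely many numbers `deg j ∈ [0, d]`, among them all integers in this
interval (the degrees of the algebraic cycles on the `X_i`), such that **for all `U`, all `i` and all `n`**

  `CH^n(V × U, i) ⊗ ℚ ≃ ⨁ j, CH^(n - deg j)(Z × U, i) ⊗ ℚ`,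
  `rank CH^n(V × U, i) = ∑ j, rank CH^(n - deg j)(Z × U, i)`.

So the rank of `CH^n(V × U, i)` is finite if and only if the ranks of `CH^l(Z × U, i)` are finite for
`n - d ≤ l ≤ n`: **Q1 for `V × U` and for `Z × U` are equivalent**; if `Z × U` is a curve, all ranks are finite
(theorem of Harder), so this is true for the products `V × U` of different `X_i` and a curve `U` which satisfy the
conditions of the theorem.

The hand-in MP_666bea_ag.HyperplaneCoverings (on the order of the zeta functions) contains that the
finiteness of the ranks is equivalent, with nilpotence for all products, repeated factors included; new here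
are the isomorphism and the formula for the ranks, with the same numbers `deg j` for all `U`, `i`, `n`, and
nilpotence is only used for products of different `X_i`.

Examples. (a) Let `X_i` be curves `y ^ N_i = ∏ (x - x_{i,k})` with `N_i` factors, of genus
`(N_i - 1) (N_i - 2) / 2`, for different prime numbers `N_i` dividing `c - 1`. Then `weight X_i j` is the
residue of `j` modulo `N_i`, and `IsSmall N 0` holds for the product `N` of the `N_i` (take `u` with
`u j_i = 1` modulo `N_i`). (b) Let `X` be the variety `w ^ N = l_1 ⋯ l_N` of dimension `n = N - 2`, with
`N` hyperplanes in general position, for a prime number `N` dividing `c - 1` (the resolutions are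
Calabi-Yau varieties). The weight for `u j = 1` is `1`, so `IsSmall N λ` holds for all `λ < n`: the
theorem applies to **all schemes `U` of finite type of dimension smaller than `dim X`** with a
polynomial `χ`.

The proof: by the theorem of Stickelberger on Gauss sums and the product formula no product of
eigenvalues of the Frobenius on the parts `T` of several `X_i` and on the cohomology of `Z × U` is a
power of `q`. So the intersection pairing on the algebraic classes of `X_i` is not degenerate; let
`D j`, `E j` be dual systems of cycles on `X_i`. The eigenvalues of Frobenius and nilpotence give
`T (X_i × V') = ⨁ D j × T (V')` (the idea to play the eigenvalues of Frobenius off against nilpotence is due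
to Soulé, Geisser and Kahn).

helper876; built on the library of the starting files (estimates of sums over hyperplane
arrangements by Gauss sums: helper528 and helpers 800, 883, 135, 563, 271, 540, 400, 999, 782, 605,
346; traces on eigenspaces: helper117; correspondences, nilpotence and the Kunneth formula: helpers
484, 492, 550; the idea to work relative to a scheme: helper156).
-/

set_option autoImplicit false

open Polynomial CategoryTheory AlgebraicGeometry

namespace Pool.Agent.Results.MP_12d50c_ag.HyperplaneCoverings

open Pool.Agent.H914 Pool.Agent.H914.VarClass Pool.Agent.H914.VarClass.Obj Pool.Agent.W492.BB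
  Pool.Agent.W484.CK Pool.Agent.N876.RK1

/-- **The ranks of the higher Chow groups of products with cyclic coverings branched along hyperplanes.** -/
theorem result (c : ℕ) [Fact c.Prime] (κ : Type) [Field κ] [Fintype κ] [CharP κ c] {ι : Type}
    (C : ι → Covering κ) (f N lam : ℕ) (hC : IsSmallSystem C c f N lam)
    {𝒱 : VarClass κ} (A : TheoryData.{0, 0, 0} 𝒱 ℚ) [IsChow A] {K : Type} [Field K]
    [IsAlgClosed K] [CharZero K] (H : WeilTheoryData.{0, 0, 0} A K) [IsWeil H] (τ : K →+* ℂ)
    (F : ∀ X : 𝒱.Obj, X ⟶ X) (X : ι → 𝒱.Obj) (Z : 𝒱.Obj) (χ : ℚ[X])
    (h : IsCoveringSystem C N lam H τ F X Z χ)
    (hnil : ∀ L : List ι, L.Nodup → Nilpotence H (productOf X Z L))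
    (L : List ι) (hL : L.Nodup) :
    ∃ (J : Type) (_ : Fintype J) (deg : J → ℕ), (∀ j, deg j ≤ dimension X L) ∧
      (∀ l ≤ dimension X L, ∃ j, deg j = l) ∧
      ∀ (T : MotivicData A) (φ : ∀ X, T.M X →ₗ[ℚ] T.M X),
        IsRelative T φ F (Fintype.card κ) χ →
        Conclusions T (productOf X Z L) Z (dimension X L) deg :=
  main c κ C f N lam hC A H τ F X Z χ h hnil L hL

end Pool.Agent.Results.MP_12d50c_ag.HyperplaneCoverings
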